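import Mathlib

namespace Pool.Agent.Results.MP_2432f5_co.Counter

/-- `w` is a word over the alphabet `S`. -/
def Over (S : Finset ℕ) (w : List ℕ) : Prop := ∀ c ∈ w, c ∈ S

/-- `w` encounters the pattern `p`; letters of `p` lying in `S` are constants. -/
def Enc (S : Finset ℕ) (p w : List ℕ) : Prop :=
  ∃ h : ℕ → List ℕ, (∀ x ∈ p, h x ≠ [] ∧ Over S (h x)) ∧ (∀ a ∈ p, a ∈ S → h a = [a]) ∧
    p.flatMap h <:+: w

/-- `u` is a maximal `p`-free word over `S`. -/
def MaxFree (S : Finset ℕ) (p u : List ℕ) : Prop :=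
  Over S u ∧ ¬ Enc S p u ∧ ∀ a ∈ S, ∀ b ∈ S, Enc S p (a :: u ++ [b])

lemma no_max (S : Finset ℕ) (a c b : ℕ) (q : List ℕ) (ha : a ∈ S) (hc : c ∈ S) (hb : b ∈ S)
    (hab : a ≠ b) (hcb : c ≠ b) (u : List ℕ) : ¬ MaxFree S (a :: q ++ [c]) u := by
  rintro ⟨-, h1, h2⟩
  obtain ⟨h, e1, e2, e3⟩ := h2 b hb b hb
  refine h1 ⟨h, e1, e2, ?_⟩
  have ea : h a = [a] := e2 a (by simp) ha
  have ec : h c = [c] := e2 c (by simp) hc
  have e : (a :: q ++ [c]).flatMap h = a :: (q.flatMap h ++ [c]) := by simp [ea, ec]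
  rw [e] at e3 ⊢
  rw [List.cons_append, List.infix_cons_iff] at e3
  rcases e3 with e3 | e3
  · exact absurd (List.cons_prefix_cons.1 e3).1 hab
  · rw [List.infix_concat_iff] at e3
    rcases e3 with e3 | e3
    · rw [← List.cons_append, ← List.reverse_prefix] at e3
      simp only [List.reverse_append, List.reverse_cons, List.reverse_nil, List.nil_append,
        List.singleton_append] at e3
      exact absurd (List.cons_prefix_cons.1 e3).1 hcb
    · exact e3

theorem result :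
    (∀ (S : Finset ℕ) (a c b : ℕ) (q : List ℕ), a ∈ S → c ∈ S → b ∈ S → a ≠ b → c ≠ b →
      ∀ u, ¬ MaxFree S (a :: q ++ [c]) u) ∧
    ¬ ∀ (S : Finset ℕ) (p w : List ℕ), p ≠ [] → Over S w → ¬ Enc S p w →
      ∃ u, MaxFree S p u ∧ w <:+: u := by
  refine ⟨fun S a c b q => no_max S a c b q, fun H => ?_⟩
  obtain ⟨u, hu, -⟩ := H {0, 1} (0 :: [2, 2] ++ [0]) [] (by simp) (by simp [Over]) (by
    rintro ⟨h, -, e2, e3⟩
    have := e2 0 (by simp) (by simp)
    simp [this] at e3)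
  exact no_max {0, 1} 0 0 1 [2, 2] (by simp) (by simp) (by simp) (by simp) (by simp) u hu

end Pool.Agent.Results.MP_2432f5_co.Counter
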